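import Pool.Agent.Y282.WD.Stm

set_option autoImplicit false

/-! Project WD (helper282), job WD-HAR: a Harnack type inequality. -/

namespace Pool.Agent.Y319.WD

open Metric Set

lemma har_aux (h : ℂ → ℂ) (z : ℂ) (r B B' : ℝ) (hr : 0 < r) (hd : DifferentiableOn ℂ h (ball z r))
    (hB : ∀ w ∈ ball z r, ‖h w‖ ≤ B) (hBB : B < B') (w : ℂ) (hw : w ∈ ball z (r / 2)) :
    3 * ‖h z‖ - 2 * B' ≤ ‖h w‖ := by
  obtain ⟨u, hu1, hu2⟩ : ∃ u : ℂ, ‖u‖ = 1 ∧ u * h z = (‖h z‖ : ℂ) := by
    by_cases h0 : h z = 0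
    · exact ⟨1, by simp, by simp [h0]⟩
    · refine ⟨(‖h z‖ : ℂ) / h z, ?_, ?_⟩
      · rw [norm_div, Complex.norm_real, norm_norm, div_self (norm_ne_zero_iff.2 h0)]
      · field_simp
  set G : ℂ → ℂ := fun x => (B' : ℂ) - u * h x with hG
  set g : ℝ := B' - ‖h z‖ with hg
  have hz : z ∈ ball z r := mem_ball_self hr
  have hg0 : 0 < g := by
    have := hB z hz
    linarith
  have hGz : G z = (g : ℂ) := by
    simp only [hG, hg, hu2]
    push_cast
    ring
  have hGre : ∀ x ∈ ball z r, 0 < (G x).re := by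
    intro x hx
    have h1 : (u * h x).re ≤ ‖u * h x‖ := Complex.re_le_norm _
    rw [norm_mul, hu1, one_mul] at h1
    have h2 := hB x hx
    simp only [hG, Complex.sub_re, Complex.ofReal_re]
    linarith
  have hne : ∀ x ∈ ball z r, G x + g ≠ 0 := by
    intro x hx h0
    have h1 := congrArg Complex.re h0
    rw [Complex.add_re, Complex.ofReal_re, Complex.zero_re] at h1
    have h2 := hGre x hx
    linarith
  set Φ : ℂ → ℂ := fun x => (G x - g) / (G x + g) with hΦ
  have hΦz : Φ z = 0 := by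
    simp only [hΦ, hGz, sub_self, zero_div]
  have hGd : DifferentiableOn ℂ G (ball z r) := (hd.const_mul u).const_sub _
  have hΦd : DifferentiableOn ℂ Φ (ball z r) :=
    (hGd.sub_const _).div (hGd.add_const _) hne
  have hΦm : MapsTo Φ (ball z r) (closedBall (Φ z) 1) := by
    intro x hx
    rw [hΦz, mem_closedBall, dist_zero_right, hΦ]
    simp only
    rw [norm_div, div_le_one (norm_pos_iff.2 (hne x hx))]
    refine le_of_sq_le_sq ?_ (norm_nonneg _)
    rw [← Complex.normSq_eq_norm_sq, ← Complex.normSq_eq_norm_sq, Complex.normSq_apply,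
      Complex.normSq_apply]
    simp only [Complex.sub_re, Complex.add_re, Complex.sub_im, Complex.add_im, Complex.ofReal_re,
      Complex.ofReal_im, sub_zero, add_zero]
    have := mul_pos hg0 (hGre x hx)
    nlinarith
  have hwr : w ∈ ball z r := ball_subset_ball (by linarith) hw
  have h1 := Complex.dist_le_div_mul_dist_of_mapsTo_ball hΦd hΦm hwr
  rw [hΦz, dist_zero_right] at h1
  have h2 : ‖Φ w‖ ≤ 1 / 2 := by
    refine h1.trans ?_
    rw [mem_ball] at hw
    rw [div_mul_eq_mul_div, one_mul, div_le_iff₀ hr]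
    linarith
  have h3 : ‖G w - g‖ ≤ 1 / 2 * ‖G w + g‖ := by
    have h4 : G w - g = Φ w * (G w + g) := by
      simp only [hΦ]
      rw [div_mul_cancel₀ _ (hne w hwr)]
    rw [h4, norm_mul]
    gcongr
  have h4 : ‖G w + g‖ ≤ ‖G w - g‖ + 2 * g := by
    have h5 : G w + g = (G w - g) + ((2 * g : ℝ) : ℂ) := by push_cast; ring
    calc ‖G w + g‖ = ‖(G w - g) + ((2 * g : ℝ) : ℂ)‖ := by rw [← h5]
      _ ≤ ‖G w - g‖ + ‖((2 * g : ℝ) : ℂ)‖ := norm_add_le _ _
      _ = _ := by rw [Complex.norm_real, Real.norm_eq_abs, abs_of_nonneg (by linarith)]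
  have h5 : ‖G w‖ ≤ ‖G w - g‖ + g := by
    calc ‖G w‖ = ‖(G w - g) + (g : ℂ)‖ := by rw [sub_add_cancel]
      _ ≤ ‖G w - g‖ + ‖(g : ℂ)‖ := norm_add_le _ _
      _ = _ := by rw [Complex.norm_real, Real.norm_eq_abs, abs_of_nonneg hg0.le]
  have h6 : B' - ‖G w‖ ≤ ‖h w‖ := by
    have h7 : (B' : ℂ) = G w + u * h w := by simp only [hG]; ring
    have h8 : ‖(B' : ℂ)‖ ≤ ‖G w‖ + ‖u * h w‖ := by
      conv_lhs => rw [h7]
      exact norm_add_le _ _
    rw [norm_mul, hu1, one_mul, Complex.norm_real, Real.norm_eq_abs] at h8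
    have := le_abs_self B'
    linarith
  linarith

theorem t_HAR : Pool.Agent.Y282.WD.S_HAR := by
  intro h z r B hr hd hB w hw
  refine le_of_forall_pos_le_add fun ε hε => ?_
  have := har_aux h z r B (B + ε / 2) hr hd hB (by linarith) w hw
  linarith

end Pool.Agent.Y319.WD
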